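import Pool.Agent.H21.RE.Abs
import Pool.Agent.H21.RD.Var
import Pool.Agent.H21.L.R_seed8.TH942.ES.NF

/-!
# Euler products over the finite places of a number field with local roots in the unit disc, centre `1/2`

The lemmas on `Roots` are those of the library file `Q5/NF/Half.lean`.
-/

set_option autoImplicit false

open Filter Topology Set Complex NumberField IsDedekindDomain

namespace Pool.Agent.H21.RG

open Pool.Agent.TH942.ES (Sys zv xv cv LE nf_sys)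
open Pool.Agent.H921R2.TatePole (nm two_le_nm)
open Pool.Agent.TH270.MS (Pl)
open Pool.Agent.Q5.VA (NS)
open Pool.Agent.W5h26.ML (Mh)

variable {K : Type} [Field K] [NumberField K] {n : ℕ} {S : Finset (HeightOneSpectrum (𝓞 K))}
  {r : HeightOneSpectrum (𝓞 K) → Fin n → ℂ} {F : ℂ → ℂ}

/-- the restriction to the places outside of `S` -/
def res (S : Finset (HeightOneSpectrum (𝓞 K))) (r : HeightOneSpectrum (𝓞 K) → Fin n → ℂ)
    (v : {v : HeightOneSpectrum (𝓞 K) // v ∉ S}) (j : Fin n) : ℂ := r v.1 j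

/-- the local roots outside of `S` are in the closed unit disc, with real power sums -/
def Roots (S : Finset (HeightOneSpectrum (𝓞 K))) (r : HeightOneSpectrum (𝓞 K) → Fin n → ℂ) : Prop :=
  ∀ v : HeightOneSpectrum (𝓞 K), v ∉ S → (∀ j, ‖r v j‖ ≤ 1) ∧ ∀ k : ℕ, (∑ j, r v j ^ k).im = 0

theorem Roots.le (R : Roots S r) (v : {v : HeightOneSpectrum (𝓞 K) // v ∉ S}) (j : Fin n) :
    ‖res S r v j‖ ≤ 1 := (R v.1 v.2).1 j

theorem Roots.real_z (R : Roots S r) (v : {v : HeightOneSpectrum (𝓞 K) // v ∉ S}) (k : ℕ) :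
    (∑ j, zv (NS S) (res S r) v j ^ k).im = 0 := by
  have h1 : ∑ j, zv (NS S) (res S r) v j ^ k =
      (∑ j, r v.1 j ^ k) * (((√((NS S v : ℕ) : ℝ) ^ k)⁻¹ : ℝ) : ℂ) := by
    rw [Finset.sum_mul]
    refine Finset.sum_congr rfl fun j _ => ?_
    unfold zv res
    rw [div_pow, div_eq_mul_inv]
    push_cast
    rfl
  rw [h1, Complex.im_mul_ofReal, (R v.1 v.2).2, zero_mul]

theorem Roots.norm_z (R : Roots S r) (v : {v : HeightOneSpectrum (𝓞 K) // v ∉ S}) (j : Fin n) :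
    ‖zv (NS S) (res S r) v j‖ < 1 := by
  have hq : (2 : ℝ) ≤ nm v.1 := by exact_mod_cast two_le_nm v.1
  unfold zv
  have h1 : (1 : ℝ) < √((NS S v : ℕ) : ℝ) := by
    rw [Real.lt_sqrt zero_le_one]
    have : ((NS S v : ℕ) : ℝ) = (nm v.1 : ℝ) := rfl
    rw [this]
    linarith
  rw [norm_div, Complex.norm_real, Real.norm_of_nonneg (by positivity), div_lt_one (by linarith)]
  exact (R.le v j).trans_lt h1

theorem Roots.log_im (R : Roots S r) (v : {v : HeightOneSpectrum (𝓞 K) // v ∉ S}) :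
    (∑ j, log (1 - zv (NS S) (res S r) v j)).im = 0 := by
  have h1 : HasSum (fun k : ℕ => ∑ j, zv (NS S) (res S r) v j ^ k / k)
      (∑ j, -log (1 - zv (NS S) (res S r) v j)) :=
    hasSum_sum fun j _ => hasSum_taylorSeries_neg_log (R.norm_z v j)
  have h2 := hasSum_im h1
  have h3 : ∀ k : ℕ, (∑ j, zv (NS S) (res S r) v j ^ k / (k : ℂ)).im = 0 := by
    intro k
    rw [← Finset.sum_div]
    have : (∑ j, zv (NS S) (res S r) v j ^ k) / (k : ℂ) =
        (∑ j, zv (NS S) (res S r) v j ^ k) * (((k : ℝ)⁻¹ : ℝ) : ℂ) := by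
      rw [div_eq_mul_inv]
      push_cast
      rfl
    rw [this, Complex.im_mul_ofReal, R.real_z, zero_mul]
  simp only [h3] at h2
  have h4 := h2.unique hasSum_zero
  rw [Finset.sum_neg_distrib, Complex.neg_im, neg_eq_zero] at h4
  exact h4

theorem Roots.sys (R : Roots S r) : Sys (NS S) (res S r) :=
  nf_sys (fun v => v ∉ S) (res S r) R.le fun v => R.log_im v

theorem cP_N (z : {v : HeightOneSpectrum (𝓞 K) // v ∉ S} × ℕ) :
    Pool.Agent.TH942.ES.cP (NS S) (res S r) z =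
    (∑ j, r z.1.1 j ^ (z.2 + 1)).re / (((z.2 : ℝ) + 1) * √(nm z.1.1 : ℝ) ^ (z.2 + 1)) := by
  have hq2 : (2 : ℝ) ≤ nm z.1.1 := by exact_mod_cast two_le_nm z.1.1
  have hq : (0 : ℝ) < nm z.1.1 := by linarith
  have h1 : ∑ j, zv (NS S) (res S r) z.1 j ^ (z.2 + 1) =
      (∑ j, r z.1.1 j ^ (z.2 + 1)) * (((√(nm z.1.1 : ℝ) ^ (z.2 + 1))⁻¹ : ℝ) : ℂ) := by
    rw [Finset.sum_mul]
    refine Finset.sum_congr rfl fun j _ => ?_
    unfold zv res
    rw [div_pow, div_eq_mul_inv]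
    push_cast
    rfl
  have h0 : 0 < √(nm z.1.1 : ℝ) := Real.sqrt_pos.2 hq
  unfold Pool.Agent.TH942.ES.cP
  rw [h1, Complex.re_mul_ofReal]
  field_simp

theorem factorN (v : {v : HeightOneSpectrum (𝓞 K) // v ∉ S}) (s : ℂ) :
    ∏ j, (1 - zv (NS S) (res S r) v j * xv (NS S) v (s - (((1 / 2 : ℝ)) : ℂ)))⁻¹ =
      (∏ j, (1 - r v.1 j * (nm v.1 : ℂ) ^ (-s)))⁻¹ := by
  have hq2 : (2 : ℝ) ≤ nm v.1 := by exact_mod_cast two_le_nm v.1
  have hq : (0 : ℝ) < nm v.1 := by linarith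
  have hqc : (nm v.1 : ℂ) ≠ 0 := by exact_mod_cast hq.ne'
  rw [Finset.prod_inv_distrib]
  congr 1
  refine Finset.prod_congr rfl fun j _ => ?_
  congr 1
  have h1 : xv (NS S) v (s - ((1 / 2 : ℝ) : ℂ)) = (nm v.1 : ℂ) ^ (-(s - ((1 / 2 : ℝ) : ℂ))) := by
    unfold xv
    have e : ((NS S v : ℕ) : ℝ) = (nm v.1 : ℝ) := rfl
    rw [e, Complex.cpow_def_of_ne_zero hqc, ← Complex.ofReal_natCast, ← Complex.ofReal_log hq.le]
    congr 1
    ring
  have h2 : ((√((NS S v : ℕ) : ℝ) : ℝ) : ℂ)⁻¹ = (nm v.1 : ℂ) ^ (-((1 / 2 : ℝ) : ℂ)) := by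
    have e : ((NS S v : ℕ) : ℝ) = (nm v.1 : ℝ) := rfl
    rw [e, Real.sqrt_eq_rpow, Complex.ofReal_cpow hq.le, Complex.cpow_neg]
    push_cast
    rfl
  unfold zv res
  rw [h1, div_eq_mul_inv, h2, mul_assoc, ← Complex.cpow_add _ _ hqc]
  congr 2
  ring

/-- the Euler product continues to `F` -/
theorem nf_mh (R : Roots S r) (hF1 : ∀ s : ℂ, 1 / 2 < s.re → DifferentiableAt ℂ F s)
    (hF2 : AnalyticAt ℂ F (1 / 2)) (hF : ∀ s : ℂ, 1 < s.re →
      HasProd (fun v : {v : HeightOneSpectrum (𝓞 K) // v ∉ S} =>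
        (∏ j, (1 - r v.1 j * (nm v.1 : ℂ) ^ (-s)))⁻¹) (F s)) :
    Mh (NS S) (res S r) (fun s => F (1 / 2 + s)) 0 where
  E := R.sys
  hreal := R.real_z
  hG := fun s hs => by
    have h1 : DifferentiableAt ℂ F (1 / 2 + s) := hF1 _ (by
      rw [Complex.add_re]
      norm_num
      linarith)
    exact h1.comp (f := fun s : ℂ => (1 / 2 : ℂ) + s) s (by fun_prop)
  h0 := by
    have h1 : AnalyticAt ℂ (fun z : ℂ => (1 / 2 : ℂ) + z) 0 := by fun_prop
    exact AnalyticAt.comp (f := fun z : ℂ => (1 / 2 : ℂ) + z) (by simpa using hF2) h1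
  hL := fun s hs => by
    rw [pow_zero, one_mul]
    have h1 := hF (1 / 2 + s) (by
      rw [Complex.add_re]
      norm_num
      linarith)
    unfold Pool.Agent.TH942.ES.LE
    rw [← h1.tprod_eq]
    refine tprod_congr fun v => ?_
    have h2 := factorN (S := S) (r := r) v (1 / 2 + s)
    have e : (1 / 2 + s) - (((1 / 2 : ℝ)) : ℂ) = s := by
      push_cast
      ring
    rw [e] at h2
    exact h2.symm

end Pool.Agent.H21.RG
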